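import Mathlib

/-!
# Colouring unit circular arcs with max-load many colours (MP_7d4b8e_co, Q1)

If at least `L - 1` new unit arcs (not necessarily pairwise disjoint) can be added to a finite set
`A` of unit arcs of max load `L` without raising the max load, then `χ(A) ≤ L`. The proof adds
`b ≤ L - 1` of the new arcs so that the number of arcs becomes a multiple of `L`, and colours the
arcs cyclically by their rank modulo `L`.
-/

set_option autoImplicit false

namespace Pool.Agent.Results.MP_7d4b8e_co.AddedArcs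

/-- The image in the circle `ℝ / lam ℤ` of the half-open interval `[x, x + 1)`. -/
def arc (lam x : ℝ) : Set (AddCircle lam) := (fun y : ℝ => (y : AddCircle lam)) '' Set.Ico x (x + 1)

/-- Unit arcs of the circle of circumference `lam`. -/
def IsUnitArc {lam : ℝ} (a : Set (AddCircle lam)) : Prop := ∃ x : ℝ, a = arc lam x

/-- The number of arcs of `A` containing the point `z`. -/
noncomputable def load {lam : ℝ} (A : Set (Set (AddCircle lam))) (z : AddCircle lam) : ℕ :=
  {a : Set (AddCircle lam) | a ∈ A ∧ z ∈ a}.ncard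

/-- The max load: the largest number of arcs of `A` with a common point. -/
noncomputable def maxLoad {lam : ℝ} (A : Set (Set (AddCircle lam))) : ℕ := ⨆ z, load A z

/-- The intersection graph of `A`. -/
def interGraph {lam : ℝ} (A : Set (Set (AddCircle lam))) : SimpleGraph {a // a ∈ A} where
  Adj a b := a ≠ b ∧ (a.1 ∩ b.1).Nonempty
  symm := ⟨fun a b h => ⟨h.1.symm, by rw [Set.inter_comm]; exact h.2⟩⟩
  loopless := ⟨fun a h => h.1 rfl⟩

theorem coe_eq_coe {lam y y' : ℝ} : (y' : AddCircle lam) = (y : AddCircle lam) ↔ ∃ n : ℤ, y' = y + n * lam := by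
  have h : (y' : AddCircle lam) = (y : AddCircle lam) ↔ ((y' - y : ℝ) : AddCircle lam) = 0 := by
    rw [AddCircle.coe_sub, sub_eq_zero]
  rw [h, AddCircle.coe_eq_zero_iff]
  constructor
  · rintro ⟨n, hn⟩
    refine ⟨n, ?_⟩
    rw [zsmul_eq_mul] at hn
    linarith
  · rintro ⟨n, hn⟩
    refine ⟨n, ?_⟩
    rw [zsmul_eq_mul]
    linarith

theorem mem_arc {lam x y : ℝ} : (y : AddCircle lam) ∈ arc lam x ↔ ∃ n : ℤ, x ≤ y + n * lam ∧ y + n * lam < x + 1 := by
  constructor
  · rintro ⟨y', ⟨h1, h2⟩, h3⟩
    obtain ⟨n, rfl⟩ := coe_eq_coe.1 h3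
    exact ⟨n, h1, h2⟩
  · rintro ⟨n, h1, h2⟩
    exact ⟨y + n * lam, ⟨h1, h2⟩, coe_eq_coe.2 ⟨n, rfl⟩⟩

theorem arc_start {lam : ℝ} (h : 0 < lam) {a : Set (AddCircle lam)} (ha : IsUnitArc a) :
    ∃ x : ℝ, 0 ≤ x ∧ x < lam ∧ a = arc lam x := by
  obtain ⟨x, rfl⟩ := ha
  refine ⟨toIcoMod h 0 x, (toIcoMod_mem_Ico h 0 x).1, by simpa using (toIcoMod_mem_Ico h 0 x).2, ?_⟩
  ext z
  obtain ⟨y, rfl⟩ := QuotientAddGroup.mk_surjective z
  rw [show (QuotientAddGroup.mk y : AddCircle lam) = (y : AddCircle lam) from rfl, mem_arc, mem_arc]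
  have e : toIcoMod h 0 x = x - toIcoDiv h 0 x * lam := by
    rw [toIcoMod, zsmul_eq_mul]
  constructor
  · rintro ⟨n, h1, h2⟩
    refine ⟨n - toIcoDiv h 0 x, ?_, ?_⟩ <;> push_cast <;> rw [e] <;> linarith
  · rintro ⟨n, h1, h2⟩
    rw [e] at h1 h2
    refine ⟨n + toIcoDiv h 0 x, ?_, ?_⟩ <;> push_cast <;> linarith

/-- The cyclic colouring of a sorted family whose number of members is a multiple of `L`. -/
theorem colour_sorted {lam : ℝ} (hlam : 1 ≤ lam) {L q : ℕ} (s : Fin (q * L) → ℝ) (hs : Monotone s)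
    (h0 : ∀ i, 0 ≤ s i) (h1 : ∀ i, s i < lam)
    (hload : ∀ z : AddCircle lam, {i | z ∈ arc lam (s i)}.ncard ≤ L) {i j : Fin (q * L)} (hij : i < j)
    (hint : (arc lam (s i) ∩ arc lam (s j)).Nonempty) : (i : ℕ) % L ≠ (j : ℕ) % L := by
  intro hmod
  have hijn : (i : ℕ) < j := hij
  have hdvd : L ∣ (j : ℕ) - i := (Nat.modEq_iff_dvd' hijn.le).1 hmod
  have hL : 0 < L := by
    rcases Nat.eq_zero_or_pos L with h | h
    · subst h
      exact absurd i.2 (by simp)
    · exact h
  have hsij : s i ≤ s j := hs hij.le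
  obtain ⟨z, hz1, hz2⟩ := hint
  obtain ⟨y, rfl⟩ := QuotientAddGroup.mk_surjective z
  change ((y : ℝ) : AddCircle lam) ∈ arc lam (s i) at hz1
  change ((y : ℝ) : AddCircle lam) ∈ arc lam (s j) at hz2
  rw [mem_arc] at hz1 hz2
  obtain ⟨n, a1, a2⟩ := hz1
  obtain ⟨m, b1, b2⟩ := hz2
  -- the two cases
  have hcase : s j < s i + 1 ∨ s i + lam < s j + 1 := by
    rcases lt_trichotomy n m with h | h | h
    · right
      have : (n : ℝ) + 1 ≤ m := by exact_mod_cast h
      nlinarith
    · left
      subst h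
      linarith
    · exfalso
      have : (m : ℝ) + 1 ≤ n := by exact_mod_cast h
      nlinarith
  rcases hcase with hc | hc
  · have hsub : (Finset.Icc i j : Set (Fin (q * L))) ⊆ {l | ((s j : ℝ) : AddCircle lam) ∈ arc lam (s l)} := by
      intro l hl
      simp only [Finset.coe_Icc, Set.mem_Icc] at hl
      rw [Set.mem_ofPred_eq, mem_arc]
      refine ⟨0, ?_, ?_⟩
      · have := hs hl.2
        simpa using this
      · have := hs hl.1
        simp only [Int.cast_zero, zero_mul, add_zero]
        linarith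
    have hcard := (Set.ncard_le_ncard hsub (Set.toFinite _)).trans (hload _)
    rw [Set.ncard_coe_finset, Fin.card_Icc] at hcard
    have : L ≤ (j : ℕ) - i := Nat.le_of_dvd (by omega) hdvd
    omega
  · have hsub : ((Finset.Iic i ∪ Finset.Ici j : Finset (Fin (q * L))) : Set (Fin (q * L))) ⊆
        {l | ((s i : ℝ) : AddCircle lam) ∈ arc lam (s l)} := by
      intro l hl
      simp only [Finset.coe_union, Finset.coe_Iic, Finset.coe_Ici, Set.mem_union, Set.mem_Iic, Set.mem_Ici] at hl
      rw [Set.mem_ofPred_eq, mem_arc]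
      rcases hl with hl | hl
      · refine ⟨0, ?_, ?_⟩
        · have := hs hl
          simpa using this
        · simp only [Int.cast_zero, zero_mul, add_zero]
          have := h0 l
          have := h1 j
          linarith
      · refine ⟨1, ?_, ?_⟩
        · have := h1 l
          have := h0 i
          simp only [Int.cast_one, one_mul]
          linarith
        · have := hs hl
          simp only [Int.cast_one, one_mul]
          linarith
    have hcard := (Set.ncard_le_ncard hsub (Set.toFinite _)).trans (hload _)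
    rw [Set.ncard_coe_finset, Finset.card_union_of_disjoint, Fin.card_Iic, Fin.card_Ici] at hcard
    · have hj := j.2
      have h2 : L ∣ q * L - ((j : ℕ) - i) := Nat.dvd_sub (Dvd.intro_left q rfl) hdvd
      have : L ≤ q * L - ((j : ℕ) - i) := Nat.le_of_dvd (by omega) h2
      omega
    · rw [Finset.disjoint_left]
      intro l hl hl'
      simp only [Finset.mem_Iic, Finset.mem_Ici] at hl hl'
      exact absurd (hl'.trans hl) (not_le.2 hij)

/-- The cyclic colouring of a finite family of unit arcs whose number of members is a multiple of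
`L` and whose max load is at most `L`. -/
theorem colour_family {lam : ℝ} (hlam : 1 ≤ lam) {L q : ℕ} (hL : 0 < L) {ι : Type} [Fintype ι]
    (hcard : Fintype.card ι = q * L) (u : ι → Set (AddCircle lam)) (hu : ∀ i, IsUnitArc (u i))
    (hload : ∀ z : AddCircle lam, {i | z ∈ u i}.ncard ≤ L) :
    ∃ c : ι → Fin L, ∀ i j, i ≠ j → (u i ∩ u j).Nonempty → c i ≠ c j := by
  have hst := fun i => arc_start (by linarith : 0 < lam) (hu i)
  choose s hs0 hs1 hs2 using hst
  let e : Fin (q * L) ≃ ι := (Fintype.equivFinOfCardEq hcard).symm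
  let τ := Tuple.sort (s ∘ e)
  have hmono : Monotone ((s ∘ e) ∘ τ) := Tuple.monotone_sort _
  have hload' : ∀ z : AddCircle lam, {i | z ∈ arc lam (((s ∘ e) ∘ τ) i)}.ncard ≤ L := by
    intro z
    refine le_trans (le_of_eq ?_) (hload z)
    refine Set.ncard_congr (fun i _ => e (τ i)) ?_ ?_ ?_
    · intro i hi
      rw [Set.mem_ofPred_eq] at hi ⊢
      rw [hs2 (e (τ i))]
      exact hi
    · intro i j _ _ h
      exact τ.injective (e.injective h)
    · intro k hk
      refine ⟨τ.symm (e.symm k), ?_, by simp⟩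
      rw [Set.mem_ofPred_eq] at hk ⊢
      simp only [Function.comp, Equiv.apply_symm_apply]
      rw [← hs2]
      exact hk
  refine ⟨fun k => ⟨((τ.symm (e.symm k) : Fin (q * L)) : ℕ) % L, Nat.mod_lt _ hL⟩, ?_⟩
  intro i j hij hint
  have hne : τ.symm (e.symm i) ≠ τ.symm (e.symm j) := fun h => hij (e.symm.injective (τ.symm.injective h))
  have e1 : ∀ k, arc lam (((s ∘ e) ∘ τ) (τ.symm (e.symm k))) = u k := by
    intro k
    simp only [Function.comp, Equiv.apply_symm_apply]
    exact (hs2 k).symm
  intro hc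
  have hc' : ((τ.symm (e.symm i) : Fin (q * L)) : ℕ) % L = ((τ.symm (e.symm j) : Fin (q * L)) : ℕ) % L := by
    simpa using hc
  rcases lt_or_gt_of_ne hne with h | h
  · exact colour_sorted hlam _ hmono (fun i => hs0 _) (fun i => hs1 _) hload' h
      (by rw [e1, e1]; exact hint) hc'
  · exact colour_sorted hlam _ hmono (fun i => hs0 _) (fun i => hs1 _) hload' h
      (by rw [e1, e1, Set.inter_comm]; exact hint) hc'.symm

/-- The version in which the added arcs are counted with multiplicity. -/
theorem colourable_of_family {lam : ℝ} (hlam : 1 ≤ lam) (A : Set (Set (AddCircle lam))) (hfin : A.Finite)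
    (hA : ∀ a ∈ A, IsUnitArc a) (L k : ℕ) (hk : L ≤ k + 1) (B : Fin k → Set (AddCircle lam))
    (hB : ∀ i, IsUnitArc (B i)) (hload : ∀ z, load A z + {i | z ∈ B i}.ncard ≤ L) :
    (interGraph A).Colorable L := by
  classical
  have : Fintype {a // a ∈ A} := hfin.fintype
  rcases Nat.eq_zero_or_pos L with hL | hL
  · subst hL
    have hemp : IsEmpty {a // a ∈ A} := by
      refine ⟨fun a => ?_⟩
      obtain ⟨x, hx⟩ := hA a.1 a.2
      have hxa : ((x : ℝ) : AddCircle lam) ∈ a.1 := by
        rw [hx, mem_arc]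
        exact ⟨0, by simp, by simp⟩
      have h1 := hload x
      have h2 : 0 < load A ((x : ℝ) : AddCircle lam) := by
        unfold load
        rw [Set.ncard_pos (Set.Finite.subset hfin fun b hb => hb.1)]
        exact ⟨a.1, a.2, hxa⟩
      omega
    exact SimpleGraph.Colorable.of_isEmpty _
  -- choose the number of added arcs
  obtain ⟨b, hb, q, hq⟩ : ∃ b, b ≤ k ∧ ∃ q, Fintype.card {a // a ∈ A} + b = q * L := by
    generalize Fintype.card {a // a ∈ A} = n
    refine ⟨(L - n % L) % L, ?_, ?_⟩
    · have := Nat.mod_lt (L - n % L) hL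
      omega
    · have h1 : (n + (L - n % L) % L) % L = 0 := by
        rw [Nat.add_mod, Nat.mod_mod]
        have h2 := Nat.mod_lt n hL
        rcases Nat.eq_zero_or_pos (n % L) with h3 | h3
        · rw [h3]; simp
        · rw [Nat.mod_eq_of_lt (show L - n % L < L by omega)]
          rw [show n % L + (L - n % L) = L by omega, Nat.mod_self]
      obtain ⟨q, hq⟩ := Nat.dvd_of_mod_eq_zero h1
      exact ⟨q, by rw [hq]; ring⟩
  let u : {a // a ∈ A} ⊕ Fin b → Set (AddCircle lam) := Sum.elim (fun a => a.1) fun i => B (Fin.castLE hb i)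
  have hcard : Fintype.card ({a // a ∈ A} ⊕ Fin b) = q * L := by
    rw [Fintype.card_sum, Fintype.card_fin, hq]
  obtain ⟨c, hc⟩ := colour_family hlam hL hcard u (by
    rintro (a | i)
    · exact hA a.1 a.2
    · exact hB _) (by
    intro z
    refine le_trans ?_ (hload z)
    have hsplit : {i | z ∈ u i} = Sum.inl '' {a : {a // a ∈ A} | z ∈ a.1} ∪
        Sum.inr '' {i : Fin b | z ∈ B (Fin.castLE hb i)} := by
      ext i
      rcases i with a | i <;> simp [u]
    rw [hsplit]
    refine (Set.ncard_union_le _ _).trans ?_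
    gcongr
    · rw [Set.ncard_image_of_injective _ Sum.inl_injective, load]
      refine le_of_eq ?_
      rw [← Set.ncard_image_of_injective _ Subtype.val_injective]
      congr 1
      ext a
      constructor
      · rintro ⟨a, ha, rfl⟩
        exact ⟨a.2, ha⟩
      · rintro ⟨ha, hz⟩
        exact ⟨⟨a, ha⟩, hz, rfl⟩
    · rw [Set.ncard_image_of_injective _ Sum.inr_injective,
        ← Set.ncard_image_of_injective _ (Fin.castLE_injective hb)]
      refine Set.ncard_le_ncard ?_ (Set.toFinite _)
      rintro _ ⟨i, hi, rfl⟩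
      exact hi)
  refine ⟨SimpleGraph.Coloring.mk (fun a => c (Sum.inl a)) ?_⟩
  intro a a' haa
  refine hc _ _ ?_ haa.2
  intro h
  exact haa.1 (Sum.inl_injective h)

theorem load_le_maxLoad {lam : ℝ} (A : Set (Set (AddCircle lam))) (hA : A.Finite) (z : AddCircle lam) :
    load A z ≤ maxLoad A := by
  refine le_ciSup (f := fun z => load A z) ⟨A.ncard, ?_⟩ z
  rintro _ ⟨z, rfl⟩
  exact Set.ncard_le_ncard (fun a ha => ha.1) hA

/-- **Positive answer to Q1**, with `L - 1` in place of `L + 1` and without disjointness. Let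
`lam ≥ 2`, let `A` be a finite set of unit arcs on the circle of circumference `lam`, and let `L`
be its max load. If a finite set `B` of at least `L - 1` further unit arcs can be added to `A`
without raising the max load, then `χ(A) ≤ L`. The same holds for arcs `B 0, …, B (k - 1)`,
`k ≥ L - 1`, which may coincide with one another or with arcs of `A`, when they are counted with
multiplicity. -/
theorem result (lam : ℝ) (hlam : 2 ≤ lam) (A : Set (Set (AddCircle lam))) (hfin : A.Finite)
    (hA : ∀ a ∈ A, IsUnitArc a) :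
    (∀ B : Set (Set (AddCircle lam)), B.Finite → (∀ b ∈ B, IsUnitArc b) → Disjoint A B →
      maxLoad A ≤ B.ncard + 1 → maxLoad (A ∪ B) = maxLoad A →
      (interGraph A).chromaticNumber ≤ maxLoad A) ∧
    (∀ (k : ℕ) (B : Fin k → Set (AddCircle lam)), (∀ i, IsUnitArc (B i)) → maxLoad A ≤ k + 1 →
      (∀ z, load A z + {i | z ∈ B i}.ncard ≤ maxLoad A) →
      (interGraph A).chromaticNumber ≤ maxLoad A) := by
  have key : ∀ (k : ℕ) (B : Fin k → Set (AddCircle lam)), (∀ i, IsUnitArc (B i)) → maxLoad A ≤ k + 1 →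
      (∀ z, load A z + {i | z ∈ B i}.ncard ≤ maxLoad A) →
      (interGraph A).chromaticNumber ≤ maxLoad A := by
    intro k B hB hk hload
    exact (colourable_of_family (by linarith) A hfin hA _ k hk B hB hload).chromaticNumber_le
  refine ⟨?_, key⟩
  intro B hBfin hB hdis hk hC
  have : Fintype B := hBfin.fintype
  let e := (Fintype.equivFin B)
  refine key (Fintype.card B) (fun i => (e.symm i).1) (fun i => hB _ (e.symm i).2) ?_ ?_
  · rwa [← Nat.card_eq_fintype_card, Nat.card_coe_set_eq]
  intro z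
  rw [← hC]
  refine le_trans ?_ (load_le_maxLoad _ (hfin.union hBfin) z)
  have h1 : {i | z ∈ ((e.symm i).1 : Set (AddCircle lam))}.ncard = {b | b ∈ B ∧ z ∈ b}.ncard := by
    refine Set.ncard_congr (fun i _ => (e.symm i).1) ?_ ?_ ?_
    · intro i hi
      exact ⟨(e.symm i).2, hi⟩
    · intro i j _ _ h
      exact e.symm.injective (Subtype.ext h)
    · rintro b ⟨hb, hz⟩
      exact ⟨e ⟨b, hb⟩, by simpa using hz, by simp⟩
  rw [h1, load, load, ← Set.ncard_union_eq ?_ (Set.Finite.subset hfin fun b hb => hb.1)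
    (Set.Finite.subset hBfin fun b hb => hb.1)]
  · refine Set.ncard_le_ncard ?_ (Set.Finite.subset (hfin.union hBfin) fun b hb => hb.1)
    rintro b (⟨hb, hz⟩ | ⟨hb, hz⟩)
    · exact ⟨Or.inl hb, hz⟩
    · exact ⟨Or.inr hb, hz⟩
  · rw [Set.disjoint_left]
    rintro b ⟨hb, _⟩ ⟨hb', _⟩
    exact Set.disjoint_left.1 hdis hb hb'

end Pool.Agent.Results.MP_7d4b8e_co.AddedArcs
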